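import Pool.Agent.H24.UG.T4
import Pool.Agent.H70.AG.DR

/-!
UNIFORM LOCAL GAP (`MP_c59857_nt`), row UDR: the dichotomy for the rational sets.
-/

set_option autoImplicit false
set_option linter.unusedSectionVars false

open MeasureTheory ProbabilityTheory Filter Topology Finset
open scoped Nat ENNReal

namespace Pool.Agent.H14.UG

open Pool.Agent.H67.AG (avgP ul Inv Rt Av SA kap JJ TT InvZ nxt triv tow XN PN TN XX PX TX prX Fac
  Tup dl Dlt Mis bd κ₀ Sw SwE)
open Pool.Agent.H70.AG.DR Pool.Agent.H24.UG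

section gen2

variable {Ω : Type} {m m' : MeasurableSpace Ω} [mΩ : MeasurableSpace Ω]
  {k : ℕ} (P : Measure Ω) [IsProbabilityMeasure P]

theorem mis_int_g (γ : ℝ) (hγ : 0 ≤ γ ∧ γ ≤ 1) {y y' : Fin k → Ω → ℝ} (hy : Tup y) (hy' : Tup y')
    (hm : m ≤ mΩ) :
    Integrable (fun ω => γ * Mis P m y y' ω - Mis P m y y' ω ^ 2) P := by
  have hM : Measurable (Mis P m y y') := (mis_meas P y y').mono hm le_rfl
  refine Integrable.of_bound ((hM.const_mul γ).sub (hM.pow_const 2)).aestronglyMeasurable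
    (k + k ^ 2) ?_
  filter_upwards [mis_bd P hy hy' hm] with ω hω
  rw [Real.norm_eq_abs, abs_le]
  constructor <;> nlinarith [hω.1, hω.2, mul_nonneg hω.1 (sub_nonneg.2 hω.2),
    mul_nonneg hγ.1 hω.1, mul_le_mul_of_nonneg_right hγ.2 hω.1]

/-- the mismatch with respect to the rational sets and to a power -/
theorem mis_close_g (γ : ℝ) (hγ : 0 ≤ γ ∧ γ ≤ 1) {y y' : Fin k → Ω → ℝ} (hy : Tup y)
    (hy' : Tup y') (A : Set Ω)
    (hm : m ≤ mΩ) (hm' : m' ≤ mΩ) (ε : ℝ)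
    (h : ∀ i, ∫ ω, |(P[dl y y' i | m]) ω - (P[dl y y' i | m']) ω| ∂P ≤ ε) :
    ∫ ω in A, (γ * Mis P m y y' ω - Mis P m y y' ω ^ 2) ∂P ≤
      ∫ ω in A, (γ * Mis P m' y y' ω - Mis P m' y y' ω ^ 2) ∂P + (1 + 2 * k) * (k * ε) := by
  set G : Ω → ℝ := fun ω => (1 + 2 * k) * ∑ i, |(P[dl y y' i | m]) ω - (P[dl y y' i | m']) ω|
    with hG
  have hGi : Integrable G P := by
    refine Integrable.const_mul ?_ _
    exact integrable_finsetSum _ fun i _ => (integrable_condExp.sub integrable_condExp).abs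
  have hG0 : ∀ ω, 0 ≤ G ω := fun ω => by
    rw [hG]
    positivity
  have key : ∀ᵐ ω ∂P, γ * Mis P m y y' ω - Mis P m y y' ω ^ 2 ≤
      (γ * Mis P m' y y' ω - Mis P m' y y' ω ^ 2) + G ω := by
    filter_upwards [mis_bd P hy hy' hm, mis_bd P hy hy' hm'] with ω h1 h2
    have h3 : |Mis P m y y' ω - Mis P m' y y' ω| ≤
        ∑ i, |(P[dl y y' i | m]) ω - (P[dl y y' i | m']) ω| := by
      unfold Mis
      rw [← Finset.sum_sub_distrib]
      exact Finset.abs_sum_le_sum_abs _ _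
    have h4 : γ * Mis P m y y' ω - Mis P m y y' ω ^ 2 -
        (γ * Mis P m' y y' ω - Mis P m' y y' ω ^ 2) =
        (Mis P m y y' ω - Mis P m' y y' ω) * (γ - Mis P m y y' ω - Mis P m' y y' ω) := by ring
    have h5 : |γ - Mis P m y y' ω - Mis P m' y y' ω| ≤ 1 + 2 * k := by
      rw [abs_le]
      constructor <;> linarith [h1.1, h1.2, h2.1, h2.2, hγ.1, hγ.2]
    have h6 : (Mis P m y y' ω - Mis P m' y y' ω) * (γ - Mis P m y y' ω - Mis P m' y y' ω) ≤
        (∑ i, |(P[dl y y' i | m]) ω - (P[dl y y' i | m']) ω|) * (1 + 2 * k) := by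
      refine (le_abs_self _).trans ?_
      rw [abs_mul]
      exact mul_le_mul h3 h5 (abs_nonneg _) ((abs_nonneg _).trans h3)
    have h7 : G ω = (∑ i, |(P[dl y y' i | m]) ω - (P[dl y y' i | m']) ω|) * (1 + 2 * k) := by
      rw [hG]
      ring
    linarith
  have hi := mis_int_g P γ hγ hy hy' hm
  have hi' := mis_int_g P γ hγ hy hy' hm'
  calc ∫ ω in A, (γ * Mis P m y y' ω - Mis P m y y' ω ^ 2) ∂P
      ≤ ∫ ω in A, ((γ * Mis P m' y y' ω - Mis P m' y y' ω ^ 2) + G ω) ∂P := by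
        refine setIntegral_mono_ae_restrict hi.integrableOn (hi'.add hGi).integrableOn ?_
        exact ae_restrict_of_ae key
    _ = ∫ ω in A, (γ * Mis P m' y y' ω - Mis P m' y y' ω ^ 2) ∂P + ∫ ω in A, G ω ∂P :=
        integral_add hi'.integrableOn hGi.integrableOn
    _ ≤ ∫ ω in A, (γ * Mis P m' y y' ω - Mis P m' y y' ω ^ 2) ∂P + (1 + 2 * k) * (k * ε) := by
        gcongr
        calc ∫ ω in A, G ω ∂P ≤ ∫ ω, G ω ∂P :=
              setIntegral_le_integral hGi (Eventually.of_forall hG0)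
          _ = (1 + 2 * k) * ∑ i, ∫ ω, |(P[dl y y' i | m]) ω - (P[dl y y' i | m']) ω| ∂P := by
              rw [hG, integral_const_mul, integral_finsetSum]
              exact fun i _ => (integrable_condExp.sub integrable_condExp).abs
          _ ≤ (1 + 2 * k) * (k * ε) := by
              gcongr
              refine (sum_le_sum fun i _ => h i).trans ?_
              simp

end gen2

theorem pf_UDR (hdw : T_UDW) (hle : T_ULE) (hra : Pool.Agent.H67.AG.T_RA)
    (hlv : Pool.Agent.H67.AG.T_LV) (_hul : Pool.Agent.H67.AG.T_UL) : T_UDR := by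
  intro c P hP hTP h1 h2
  set M : c.X × c.X → ℝ := Mis P (Rt (TT c.T)) c.D1 c.D2 with hM
  have hγ : 0 ≤ c.γ ∧ c.γ ≤ 1 := ⟨c.γ0.le, c.γ1⟩
  have hD : Tup c.Dt := ⟨fun i => c.Dm.comp (c.T.measurable.iterate _), fun i x => c.Dv _⟩
  have hD1 : Tup c.D1 := ⟨fun i => (hD.1 i).comp measurable_fst, fun i q => hD.2 i q.1⟩
  have hD2 : Tup c.D2 := ⟨fun i => (hD.1 i).comp measurable_snd, fun i q => hD.2 i q.2⟩
  have hf1 : Fac P (TT c.T) c.μ c.T (Prod.fst : c.X × c.X → c.X) := ⟨h1, fun q => rfl⟩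
  have hf2 : Fac P (TT c.T) c.μ c.T (Prod.snd : c.X × c.X → c.X) := ⟨h2, fun q => rfl⟩
  have he1 : Measurable[Rt (TT c.T)] fun q : c.X × c.X => c.e q.1 := c.em.comp (fst_meas c.T)
  have he2 : Measurable[Rt (TT c.T)] fun q : c.X × c.X => c.e q.2 := c.em.comp (snd_meas c.T)
  have hei : ∀ g : c.X × c.X → c.X, (Measurable[Rt (TT c.T)] fun q => c.e (g q)) →
      Integrable (fun q => c.e (g q)) P := fun g hg => by
    refine Integrable.of_bound (hg.mono (rt_le _) le_rfl).aestronglyMeasurable 1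
      (Eventually.of_forall fun q => ?_)
    rw [Real.norm_eq_abs, abs_of_nonneg (c.e0 _).1]
    exact (c.e0 _).2
  have hMm : Measurable[Rt (TT c.T)] M := mis_meas P _ _
  have hMi : Integrable (fun q => c.γ * M q - M q ^ 2) P := mis_int_g P c.γ hγ hD1 hD2 (rt_le _)
  have key := hra (c.X × c.X) P (TT c.T) c.Q (fun q => c.γ * M q - M q ^ 2 - c.e q.1 - c.e q.2)
    {q | q.1 ∈ c.Y ∧ q.2 ∈ c.Y} c.Qpos
    ((((hMm.const_mul c.γ).sub (hMm.pow_const 2)).sub he1).sub he2)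
    ((hMi.sub (hei _ he1)).sub (hei _ he2)) ?_ ?_
  · filter_upwards [key] with q hq y1 y2
    have := hq ⟨y1, y2⟩
    linarith
  · refine ⟨(measurable_fst c.Ym).inter (measurable_snd c.Ym), ?_⟩
    ext q
    have hy : ∀ x : c.X, c.T^[c.Q] x ∈ c.Y ↔ x ∈ c.Y := fun x => by
      conv_rhs => rw [← c.Yinv]
      rfl
    simp [tt_iter, hy]
  · intro w1 A hA hAB
    have hAm : MeasurableSet A := hA.1
    have hpos : ∀ w : ℕ, 0 < c.W w := fun w => Nat.mul_pos c.Qpos (Nat.factorial_pos w)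
    have hAr : MeasurableSet[Rt (TT c.T)] A := inv_le_rt (TT c.T) (hpos w1) A hA
    have hDl : 0 < Dlt c.β := by
      unfold Dlt
      refine Finset.prod_pos fun i _ => Finset.prod_pos fun j _ => ?_
      split_ifs with h
      · exact one_pos
      · rw [Int.natAbs_pos, sub_ne_zero]
        exact_mod_cast h
    -- the estimate with an error
    have est : ∀ ε : ℝ, 0 < ε → ∫ q in A, (c.γ * M q - M q ^ 2) ∂P ≤
        ∫ q in A, c.e q.1 ∂P + ∫ q in A, c.e q.2 ∂P +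
          (3 + 2 * (c.k : ℝ) ^ 2 + (1 + 2 * c.k) * c.k) * ε := by
      intro ε hε
      have l1 := hle c (c.X × c.X) P (TT c.T) Prod.fst A hTP hf1 hAr fun q hq => (hAB hq).1
      have l2 := hle c (c.X × c.X) P (TT c.T) Prod.snd A hTP hf2 hAr fun q hq => (hAB hq).2
      have l1' := l1.eventually (gt_mem_nhds (lt_add_of_pos_right _ hε))
      have l2' := l2.eventually (gt_mem_nhds (lt_add_of_pos_right _ hε))
      have hch : ∀ i : Fin c.k, ∃ w₀ : ℕ, ∀ W : ℕ, 0 < W → w₀ ! ∣ W →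
          ∫ q, |(P[dl c.D1 c.D2 i | Rt (TT c.T)]) q - (P[dl c.D1 c.D2 i | Inv (TT c.T) W]) q| ∂P
            ≤ ε := fun i =>
        hlv (c.X × c.X) P (TT c.T) (dl c.D1 c.D2 i) ε (dl_meas hD1 hD2 i)
          ⟨1, fun q => by
            rw [abs_of_nonneg (dl_bd _ _ i q).1]
            exact (dl_bd _ _ i q).2⟩ hε
      choose w₀ hw₀ using hch
      have hW : ∀ᶠ w in (c.V : Filter ℕ), w1 ≤ w ∧ 1 ≤ w ∧ (∑ i, w₀ i) ≤ w ∧
          (c.k : ℝ) ^ 2 / w ≤ ε := by
        refine c.hV ?_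
        have t : Tendsto (fun w : ℕ => (c.k : ℝ) ^ 2 / w) atTop (𝓝 0) :=
          tendsto_const_div_atTop_nhds_zero_nat _
        filter_upwards [eventually_ge_atTop w1, eventually_ge_atTop 1,
          eventually_ge_atTop (∑ i, w₀ i), t.eventually (ge_mem_nhds hε)] with w a1 a2 a3 a4
        exact ⟨a1, a2, a3, a4⟩
      obtain ⟨w, ⟨⟨⟨a1, a2, a3, a4⟩, a5⟩, a6⟩, a7⟩ := (((hW.and l1').and l2').and c.gam).exists
      have hwW : w ! ∣ c.W w := Dvd.intro_left _ rfl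
      have hAw : MeasurableSet[Inv (TT c.T) (c.W w)] A :=
        inv_mono (TT c.T) (Nat.mul_dvd_mul_left _ (Nat.factorial_dvd_factorial a1)) A hA
      have d := hdw (c.X × c.X) P (TT c.T) c.k c.β c.σ c.γ w (c.W w) (c.U w) c.D1 c.D2 A hTP c.inj
        c.σv a7 a2 (hpos w) hwW (c.hU w) hD1 hD2 hAw
      have hi : ∀ i, (w₀ i)! ∣ c.W w := fun i => by
        have : w₀ i ≤ w :=
          (Finset.single_le_sum (f := w₀) (fun j _ => Nat.zero_le _) (mem_univ i)).trans a3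
        exact (Nat.factorial_dvd_factorial this).trans hwW
      have e1 : ∀ i, ∫ q, |(P[dl c.D1 c.D2 i | Rt (TT c.T)]) q -
          (P[dl c.D1 c.D2 i | Inv (TT c.T) (c.W w)]) q| ∂P ≤ ε := fun i =>
        hw₀ i _ (hpos w) (hi i)
      have e2 : ∀ i, ∫ q, |(P[dl c.D1 c.D2 i | Rt (TT c.T)]) q -
          (P[dl c.D1 c.D2 i | Inv (TT c.T) (c.W w * Dlt c.β)]) q| ∂P ≤ ε := fun i =>
        hw₀ i _ (Nat.mul_pos (hpos w) hDl) ((hi i).trans (Dvd.intro _ rfl))
      have b1 := mis_close_g P c.γ hγ hD1 hD2 A (rt_le (TT c.T)) (inv_le (TT c.T) (c.W w)) ε e1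
      have b2 : ∀ i : Fin c.k, ∫ q in A, |(P[dl c.D1 c.D2 i | Inv (TT c.T) (c.W w * Dlt c.β)]) q -
          (P[dl c.D1 c.D2 i | Inv (TT c.T) (c.W w)]) q| ∂P ≤ 2 * ε := fun i => by
        have i1 : Integrable (fun q => |(P[dl c.D1 c.D2 i | Inv (TT c.T) (c.W w * Dlt c.β)]) q -
          (P[dl c.D1 c.D2 i | Inv (TT c.T) (c.W w)]) q|) P :=
          (integrable_condExp.sub integrable_condExp).abs
        have i2 : Integrable (fun q => |(P[dl c.D1 c.D2 i | Rt (TT c.T)]) q -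
          (P[dl c.D1 c.D2 i | Inv (TT c.T) (c.W w)]) q|) P :=
          (integrable_condExp.sub integrable_condExp).abs
        have i3 : Integrable (fun q => |(P[dl c.D1 c.D2 i | Rt (TT c.T)]) q -
          (P[dl c.D1 c.D2 i | Inv (TT c.T) (c.W w * Dlt c.β)]) q|) P :=
          (integrable_condExp.sub integrable_condExp).abs
        refine (setIntegral_le_integral i1 (Eventually.of_forall fun q => abs_nonneg _)).trans ?_
        have : ∫ q, |(P[dl c.D1 c.D2 i | Inv (TT c.T) (c.W w * Dlt c.β)]) q -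
          (P[dl c.D1 c.D2 i | Inv (TT c.T) (c.W w)]) q| ∂P ≤
          ∫ q, (|(P[dl c.D1 c.D2 i | Rt (TT c.T)]) q -
          (P[dl c.D1 c.D2 i | Inv (TT c.T) (c.W w)]) q| + |(P[dl c.D1 c.D2 i | Rt (TT c.T)]) q -
          (P[dl c.D1 c.D2 i | Inv (TT c.T) (c.W w * Dlt c.β)]) q|) ∂P := by
          refine integral_mono i1 (i2.add i3) fun q => ?_
          have := abs_sub ((P[dl c.D1 c.D2 i | Rt (TT c.T)]) q -
            (P[dl c.D1 c.D2 i | Inv (TT c.T) (c.W w)]) q) ((P[dl c.D1 c.D2 i | Rt (TT c.T)]) q -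
            (P[dl c.D1 c.D2 i | Inv (TT c.T) (c.W w * Dlt c.β)]) q)
          refine le_trans (le_of_eq ?_) this
          congr 1
          ring
        rw [integral_add i2 i3] at this
        linarith [e1 i, e2 i]
      have b3 : (c.k : ℝ) * ∑ i, ∫ q in A, |(P[dl c.D1 c.D2 i |
          Inv (TT c.T) (c.W w * Dlt c.β)]) q - (P[dl c.D1 c.D2 i | Inv (TT c.T) (c.W w)]) q| ∂P ≤
          c.k * (c.k * (2 * ε)) := by
        gcongr
        refine (sum_le_sum fun i _ => b2 i).trans ?_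
        simp
      have b4 : (c.k : ℝ) ^ 2 / w * P.real A ≤ ε := by
        have hp : P.real A ≤ 1 := measureReal_le_one
        calc (c.k : ℝ) ^ 2 / w * P.real A ≤ (c.k : ℝ) ^ 2 / w * 1 := by
              gcongr
          _ ≤ ε := by rw [mul_one]; exact a4
      have c1 : Lm (c.U w) (c.W w) P (TT c.T) c.β c.σ c.D1 A < ∫ q in A, c.e q.1 ∂P + ε := a5
      have c2 : Lm (c.U w) (c.W w) P (TT c.T) c.β c.σ c.D2 A < ∫ q in A, c.e q.2 ∂P + ε := a6
      have d' := b1.trans (add_le_add_left d _)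
      nlinarith [d', b3, b4, c1, c2]
    have fin : ∫ q in A, (c.γ * M q - M q ^ 2) ∂P ≤
        ∫ q in A, c.e q.1 ∂P + ∫ q in A, c.e q.2 ∂P := by
      refine le_of_forall_pos_le_add fun δ hδ => ?_
      have hC : 0 < 3 + 2 * (c.k : ℝ) ^ 2 + (1 + 2 * c.k) * c.k := by positivity
      have := est (δ / (3 + 2 * (c.k : ℝ) ^ 2 + (1 + 2 * c.k) * c.k)) (div_pos hδ hC)
      rwa [mul_div_cancel₀ _ hC.ne'] at this
    have i1 := hMi.integrableOn (s := A)
    have i2 := (hei _ he1).integrableOn (s := A)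
    have i3 := (hei _ he2).integrableOn (s := A)
    have : ∫ q in A, (c.γ * M q - M q ^ 2 - c.e q.1 - c.e q.2) ∂P =
        ∫ q in A, (c.γ * M q - M q ^ 2) ∂P - ∫ q in A, c.e q.1 ∂P - ∫ q in A, c.e q.2 ∂P := by
      have j1 := integral_sub (i1.sub i2) i3
      have j2 := integral_sub i1 i2
      simp only [Pi.sub_apply] at j1
      rw [j1, j2]
    rw [this]
    linarith

end Pool.Agent.H14.UG
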